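import Pool.Agent.Q174.MD.Main

/-!
# The knot 8_18 is bipartite

The definitions are in `Pool.Agent.Q174.HF.Defs` (knot diagrams on the sphere and
Reidemeister moves) and `Pool.Agent.Q174.MD.Defs` (matched diagrams, closures of braids).

The matched diagram has `12` crossings.  It is obtained from the shadow of the standard
diagram of the Borromean rings (the octahedron graph) by replacing each of its six vertices
by a clasp; three clasps have one handedness and three have the other one.  It was found by a
search over link shadows, and is carried to the standard diagram of 8_18 by `12`
Reidemeister moves.
-/

namespace Pool.Agent.Results.MP_c6d8e2_gt.EightEighteenBipartite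

open Q174.HF

/-- The knot 8_18 is bipartite: whichever of the two sign conventions for the generators is
used (`s`), the closure of the 3-braid `(σ₁σ₂⁻¹)⁴` has a diagram, and every such diagram `K`
represents a bipartite knot.  More precisely `K` is joined by Reidemeister moves to a matched
diagram with `12` crossings. -/
theorem result (s : Bool) :
    (∃ K, IsClosure (word s) K) ∧
      ∀ K, IsClosure (word s) K →
        K.IsBipartite ∧ ∃ D, K.SameKnot D ∧ D.IsMatched ∧ D.n = 12 :=
  Q174.MD.main s

end Pool.Agent.Results.MP_c6d8e2_gt.EightEighteenBipartite
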